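import Pool.Agent.R351.GD.Gen

/-!
# Tuples of integral modular invariants: relations of growing degree
-/

set_option autoImplicit false

open Module

namespace Pool.Agent.R351.GD

open Pool.Agent.Y916.Om

open Classical in
/-- tuples -/
theorem tup_badI {Ω : Type} [Field Ω] [CharZero Ω] {σ : Type} [Fintype σ] {Θ : Type} (x : Θ → ℕ → σ → Ω) (δ T Z Q e' : ℕ)
    (A : Finset ℕ) (hA : A.card ≤ T)
    (H : ∀ (θ : Θ) (w' : Fin Q → Ω), (A.filter fun n => BadW δ δ e' w' (x θ n)).card ≤ Z) (k : ℕ) :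
    ∀ (θ : Fin k → Θ) (e : ℕ) (υ : Type) [Fintype υ] (w : υ → Ω), Fintype.card υ + k * Fintype.card σ ≤ Q → e + k * δ ≤ e' →
    ((Fintype.piFinset fun _ : Fin k => A).filter fun t =>
      BadW δ δ e w (fun p : Fin k × σ => x (θ p.1) (t p.1) p.2)).card ≤ k * Z * T ^ (k - 1) := by
  induction k with
  | zero =>
    intro θ e υ _ w _ _
    rw [Finset.filter_false_of_mem, Finset.card_empty]
    · exact Nat.zero_le _
    · rintro g _ ⟨K, -, -, P, hP0, -, -, hPv⟩
      obtain ⟨a, rfl⟩ : ∃ a, P = MvPolynomial.C a := ⟨_, MvPolynomial.eq_C_of_isEmpty P⟩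
      rw [MvPolynomial.aeval_C] at hPv
      apply hP0
      have : a = 0 := hPv
      rw [this, map_zero]
  | succ k ih =>
    intro θ e υ _ w hυ he
    have hek : e + k * δ ≤ e' := by
      have : (k + 1) * δ = k * δ + δ := by ring
      omega
    have heδ : e + δ ≤ e' := by
      have : (k + 1) * δ = k * δ + δ := by ring
      have h0 : 0 ≤ k * δ := Nat.zero_le _
      omega
    have hυk : Fintype.card υ + k * Fintype.card σ ≤ Q := by
      have : (k + 1) * Fintype.card σ = k * Fintype.card σ + Fintype.card σ := by ring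
      omega
    set y : (Fin k → ℕ) → Fin k × σ → Ω := fun t p => x (θ p.1.succ) (t p.1) p.2 with hy
    set bad₁ := (Fintype.piFinset fun _ : Fin k => A).filter fun t => BadW δ δ e w (y t) with hbad₁
    set bad₂ : (Fin k → ℕ) → Finset ℕ := fun t => A.filter fun n =>
      BadW δ δ (e + δ) (Sum.elim w (y t)) (x (θ 0) n) with hbad₂
    have hsub : ((Fintype.piFinset fun _ : Fin (k + 1) => A).filter fun t =>
        BadW δ δ e w (fun p : Fin (k + 1) × σ => x (θ p.1) (t p.1) p.2)) ⊆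
        ((A ×ˢ bad₁).image fun p => (Fin.cons p.1 p.2 : Fin (k + 1) → ℕ)) ∪
        (((Fintype.piFinset fun _ : Fin k => A).sigma bad₂).image
          fun p => (Fin.cons p.2 p.1 : Fin (k + 1) → ℕ)) := by
      intro t ht
      obtain ⟨ht1, ht2⟩ := Finset.mem_filter.1 ht
      rw [Fintype.mem_piFinset] at ht1
      set en : Fin k × σ ⊕ σ ≃ Fin (k + 1) × σ :=
        { toFun := Sum.elim (fun p => (p.1.succ, p.2)) (fun s => (0, s))
          invFun := fun p => Fin.cases (Sum.inr p.2) (fun i => Sum.inl (i, p.2)) p.1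
          left_inv := by rintro (⟨i, s⟩ | s) <;> simp
          right_inv := by
            rintro ⟨i, s⟩
            refine Fin.cases ?_ (fun i => ?_) i <;> simp } with hen
      have h4 : (fun j => x (θ (en j).1) (t (en j).1) (en j).2) = Sum.elim (y fun i => t i.succ) (x (θ 0) (t 0)) := by
        funext j
        rcases j with ⟨i, s⟩ | s
        · rfl
        · rfl
      have h3 : BadW δ δ e w (Sum.elim (y fun i => t i.succ) (x (θ 0) (t 0))) := by
        rw [← h4]
        exact BadW.reindex en ht2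
      have htail : (fun i => t i.succ) ∈ Fintype.piFinset fun _ : Fin k => A := by
        rw [Fintype.mem_piFinset]
        exact fun i => ht1 i.succ
      rcases h3.split with h5 | h5
      · refine Finset.mem_union_left _ (Finset.mem_image.2 ⟨(t 0, fun i => t i.succ), ?_, ?_⟩)
        · exact Finset.mem_product.2 ⟨ht1 0, Finset.mem_filter.2 ⟨htail, h5⟩⟩
        · funext i
          refine Fin.cases ?_ (fun i => ?_) i <;> simp
      · refine Finset.mem_union_right _ (Finset.mem_image.2 ⟨⟨fun i => t i.succ, t 0⟩, ?_, ?_⟩)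
        · exact Finset.mem_sigma.2 ⟨htail, Finset.mem_filter.2 ⟨ht1 0, h5⟩⟩
        · funext i
          refine Fin.cases ?_ (fun i => ?_) i <;> simp
    have hb1 : bad₁.card ≤ k * Z * T ^ (k - 1) := ih (fun i => θ i.succ) e υ w hυk hek
    have hb2 : ∀ t, (bad₂ t).card ≤ Z := by
      intro t
      obtain ⟨w', hw'⟩ := exists_fin (Sum.elim w (y t)) (Q := Q) (by
        rw [Fintype.card_sum, Fintype.card_prod, Fintype.card_fin]
        exact hυk)
      refine (Finset.card_le_card fun n hn => ?_).trans (H (θ 0) w')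
      obtain ⟨hn1, hn2⟩ := Finset.mem_filter.1 hn
      exact Finset.mem_filter.2 ⟨hn1, BadW.mono_e (hn2.mono hw') heδ⟩
    refine (Finset.card_le_card hsub).trans ((Finset.card_union_le _ _).trans
      ((add_le_add Finset.card_image_le Finset.card_image_le).trans ?_))
    rw [Finset.card_product, Finset.card_sigma]
    have h6 : ∑ t ∈ Fintype.piFinset (fun _ : Fin k => A), (bad₂ t).card ≤ T ^ k * Z := by
      refine (Finset.sum_le_card_nsmul _ _ _ fun g _ => hb2 g).trans ?_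
      rw [smul_eq_mul, Fintype.card_piFinset]
      simp only [Finset.prod_const, Finset.card_univ, Fintype.card_fin]
      exact Nat.mul_le_mul_right _ (Nat.pow_le_pow_left hA _)
    have h7 : A.card * bad₁.card ≤ k * Z * T ^ k := by
      rcases Nat.eq_zero_or_pos k with rfl | hk
      · have h8 : bad₁.card = 0 := by
          have h9 := hb1
          simp only [zero_mul, Nat.le_zero] at h9
          exact h9
        rw [h8, mul_zero]
        exact Nat.zero_le _
      · calc A.card * bad₁.card ≤ T * (k * Z * T ^ (k - 1)) := Nat.mul_le_mul hA hb1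
          _ = k * Z * (T ^ (k - 1) * T) := by ring
          _ = _ := by rw [← pow_succ, Nat.sub_add_cancel hk]
    refine (add_le_add h7 h6).trans (le_of_eq ?_)
    rw [Nat.add_sub_cancel]
    ring

open Classical in
/-- **From windows to tuples** -/
theorem gen_tuplesI {Ω : Type} [Field Ω] [CharZero Ω] {σ : Type} [Fintype σ] (Θ : Type) (x : Θ → ℕ → σ → Ω)
    (n₀ k q c₀ : ℕ)
    (hwin : ∀ Q : ℕ, ∃ E : ℕ → ℕ, PB E ∧ ∀ (θ : Θ) (δ : ℕ) (w : Fin Q → Ω) (H n : ℕ), (H + 2) ^ E δ ≤ n →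
      ∀ S : Finset ℕ, (∀ s ∈ S, n₀ ≤ s ∧ n < s ∧ s ≤ n + H ∧ RelK δ w (x θ s)) → S.card ≤ Q + c₀) :
    ∃ C : ℕ, ∀ (θ : Fin k → Θ) (δ : ℕ) (w : Fin q → Ω) (T : ℕ), 1 ≤ T →
      (((Fintype.piFinset fun _ : Fin k => (Finset.Icc 1 T).filter fun n => n₀ ≤ n).filter fun t =>
        RelK δ w (fun p : Fin k × σ => x (θ p.1) (t p.1) p.2)).card : ℝ) ≤
      C * (T : ℝ) ^ ((k : ℝ) - 1 / ((δ : ℝ) + 2) ^ C) := by
  set Q := q + k * Fintype.card σ with hQ
  obtain ⟨E₀, hE₀p, hE₀⟩ := hwin Q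
  set E : ℕ → ℕ := fun δ => E₀ ((k + 2) * δ) + 1 with hEdef
  have hEp : PB E := (hE₀p.comp ((PB.const (k + 2)).mul PB.id)).add (PB.const 1)
  obtain ⟨c, hc⟩ := hEp
  refine ⟨8 * (Q + c₀ + 1) * k + (c + 1), fun θ δ w T hT => ?_⟩
  set C := 8 * (Q + c₀ + 1) * k + (c + 1) with hC
  have hT1 : (1 : ℝ) ≤ T := by exact_mod_cast hT
  have hT0 : (0 : ℝ) < T := by linarith
  have hE1 : 1 ≤ E δ := Nat.le_add_left _ _
  set Z : ℝ := 8 * ((Q + c₀ : ℕ) + 1) * (T : ℝ) ^ (1 - 1 / (2 * E δ : ℝ)) with hZ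
  have hZ0 : 0 ≤ Z := by positivity
  set A : Finset ℕ := (Finset.Icc 1 T).filter fun n => n₀ ≤ n with hA
  have hAT : A.card ≤ T := by
    have h1 : A.card ≤ (Finset.Icc 1 T).card := Finset.card_filter_le _ _
    rwa [Nat.card_Icc, Nat.add_sub_cancel] at h1
  have h1 := tup_badI x δ T ⌊Z⌋₊ Q ((k + 1) * δ) A hAT (fun θ w' => by
      apply Nat.le_floor
      refine count_win (Q + c₀) (E δ) T hE1 hT _ (fun n hn => ?_) fun H n hn S hS hSb => ?_
      · exact Finset.mem_Icc.1 (Finset.mem_filter.1 (Finset.mem_filter.1 hn).1).1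
      · refine hE₀ θ ((k + 2) * δ) w' H n ((Nat.pow_le_pow_right (by omega) (Nat.le_succ _)).trans hn) S fun s hs => ?_
        obtain ⟨h2, h3⟩ := Finset.mem_filter.1 (hS hs)
        refine ⟨(Finset.mem_filter.1 h2).2, (hSb s hs).1, (hSb s hs).2, badW_relK h3 ?_ (le_of_eq (by ring))⟩
        exact Nat.le_mul_of_pos_left δ (by omega)) k θ δ (Fin q) w
    (by rw [Fintype.card_fin]) (le_of_eq (by ring))
  have h2 : (((Fintype.piFinset fun _ : Fin k => A).filter fun t =>
        RelK δ w (fun p : Fin k × σ => x (θ p.1) (t p.1) p.2)).card : ℝ) ≤ k * ⌊Z⌋₊ * (T : ℝ) ^ (k - 1) := by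
    have h3 : ((Fintype.piFinset fun _ : Fin k => A).filter fun t =>
        RelK δ w (fun p : Fin k × σ => x (θ p.1) (t p.1) p.2)).card ≤ k * ⌊Z⌋₊ * T ^ (k - 1) := by
      refine (Finset.card_le_card fun t ht => ?_).trans h1
      obtain ⟨ht1, ht2⟩ := Finset.mem_filter.1 ht
      exact Finset.mem_filter.2 ⟨ht1, relK_badW ht2⟩
    exact_mod_cast h3
  refine h2.trans ?_
  rcases Nat.eq_zero_or_pos k with hk | hk
  · subst hk
    simp only [Nat.cast_zero, zero_mul]
    positivity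
  have h3 : (⌊Z⌋₊ : ℝ) ≤ Z := Nat.floor_le hZ0
  have hEp : (2 * E δ : ℝ) ≤ ((δ : ℝ) + 2) ^ C := by
    have h4 : 2 * E δ ≤ (δ + 2) ^ (c + 1) := by
      rw [pow_succ, mul_comm 2]
      exact Nat.mul_le_mul (hc δ) (by omega)
    have h5 : (δ + 2) ^ (c + 1) ≤ (δ + 2) ^ C := Nat.pow_le_pow_right (by omega) (by omega)
    exact_mod_cast h4.trans h5
  have hE0 : (0 : ℝ) < 2 * E δ := by
    have : (1 : ℝ) ≤ E δ := by exact_mod_cast hE1
    linarith
  have h6 : 1 / ((δ : ℝ) + 2) ^ C ≤ 1 / (2 * E δ : ℝ) := one_div_le_one_div_of_le hE0 hEp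
  calc (k : ℝ) * ⌊Z⌋₊ * (T : ℝ) ^ (k - 1) ≤ k * Z * (T : ℝ) ^ (k - 1) := by
        gcongr
    _ = 8 * ((Q + c₀ : ℕ) + 1) * k * ((T : ℝ) ^ (1 - 1 / (2 * E δ : ℝ)) * (T : ℝ) ^ (k - 1)) := by
        rw [hZ]; ring
    _ = 8 * ((Q + c₀ : ℕ) + 1) * k * (T : ℝ) ^ ((k : ℝ) - 1 / (2 * E δ : ℝ)) := by
        rw [← Real.rpow_natCast, ← Real.rpow_add hT0]
        congr 2
        rw [Nat.cast_sub hk]
        push_cast
        ring
    _ ≤ C * (T : ℝ) ^ ((k : ℝ) - 1 / ((δ : ℝ) + 2) ^ C) := by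
        refine mul_le_mul ?_ (Real.rpow_le_rpow_of_exponent_le hT1 (by linarith)) (by positivity)
          (Nat.cast_nonneg _)
        rw [hC]
        push_cast
        have : (0 : ℝ) ≤ c := Nat.cast_nonneg _
        linarith


end Pool.Agent.R351.GD
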