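import Pool.Agent.Y109.K.Mon
import Pool.Agent.Y929.K.Nrj
import Pool.Agent.R351.GD.L.Inp
import Pool.Agent.R351.GD.S.Mul
import Pool.Agent.R351.GD.P.AH
import Pool.Agent.Y120.K.Clr

/-!
# The modular invariant: no relations between the values for distinct shifts, with exponents polynomial in the degree
-/

set_option autoImplicit false

open PowerSeries Finset.HasAntidiagonal Pool.Agent.Y113 Pool.Agent.Y120.K Pool.Agent.Y929.K
open Pool.Agent.Y120.J (T_ODE)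
open Pool.Agent.Y109.K (rel baseJ_eq)

namespace Pool.Agent.R351.GD

/-- the monomials in the four functions form a G-system -/
theorem monJ_c (ho : T_ODE) (s : Bool) {q g : ℕ} {C : ℝ} {Tg : Polynomial ℤ} (h : GSys q C Tg (baseJ s g)) (Δ : ℕ) :
    GSys q ((2 * C) ^ ((q + 6) * Δ + 1)) Tg (fun e : Pool.Agent.Y113.Ex Δ => monJ s g e) := by
  have hC := h.one_le
  have h1 := words_gen h Δ
  -- the matrices
  have hM : ∀ e : Pool.Agent.Y113.Ex Δ, ∃ f : Fin Δ → Fin 5, ∏ i, baseJ s g (f i) = monJ s g e := by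
    intro e
    obtain ⟨f, hf⟩ := exists_word Δ (fun i => (e.1 i : ℕ)) e.sum_le
    refine ⟨f, ?_⟩
    rw [baseJ_eq]
    exact hf (fJ s g)
  choose fM hfM using hM
  have hM' : ∀ f : Fin Δ → Fin 5, ∃ co : Pool.Agent.Y113.Ex Δ → ℤ, (∀ t, |((co t : ℤ) : ℝ)| ≤ 2 ^ Δ) ∧
      ∏ i, baseJ s g (f i) = ∑ t : Pool.Agent.Y113.Ex Δ, (co t : ℚ⟦X⟧) * monJ s g t := by
    intro f
    obtain ⟨e, he, he'⟩ := word_exp Δ f
    rw [Fin.sum_univ_four] at he
    obtain ⟨co, hc, hc'⟩ := reduce Δ (e 0) (e 1) (e 2) (e 3) he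
    refine ⟨co, fun t => (hc t).trans (pow_le_pow_right₀ (by norm_num) (by omega)), ?_⟩
    have e1 : ∏ i, baseJ s g (f i) = ∏ i, fJ s g i ^ e i := by
      rw [baseJ_eq]
      exact he' (fJ s g)
    rw [e1, Fin.prod_univ_four]
    refine (hc' (fJ s g 0) (fJ s g 1) (fJ s g 2) (fJ s g 3) (rel ho s g)).trans ?_
    refine Finset.sum_congr rfl fun t _ => ?_
    congr 1
    unfold monJ
    rw [Fin.prod_univ_four]
  choose co hco hco' using hM'
  have h2 := quot2 h1 fM co (fun e => (hfM e).symm) hco' (2 ^ Δ) (2 ^ (3 * Δ)) hco (one_le_pow₀ (by norm_num))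
    (one_le_pow₀ (by norm_num)) (by
      rw [Fintype.card_fun, Fintype.card_fin, Fintype.card_fin]
      push_cast
      rw [pow_mul]
      exact pow_le_pow_left₀ (by norm_num) (by norm_num) _)
  refine h2.mono le_rfl ?_
  have h22 : (2 : ℝ) ≤ 2 * C := by linarith
  have h21 : (1 : ℝ) ≤ 2 * C := by linarith
  have hCC : C ≤ 2 * C := by linarith
  calc (2 : ℝ) ^ (3 * Δ) * 2 ^ Δ * ((2 ^ (q + 1) * C) ^ Δ * C)
      ≤ (2 * C) ^ (3 * Δ) * (2 * C) ^ Δ * (((2 * C) ^ (q + 1) * (2 * C)) ^ Δ * (2 * C)) := by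
        gcongr
    _ = (2 * C) ^ ((q + 6) * Δ + 1) := by
        rw [← pow_succ, ← pow_mul, ← pow_add, ← pow_succ, ← pow_add]
        congr 1
        ring

theorem nrjE (s : Bool) (hb : T_BASEJ s) (hode : T_ODE) (hl : T_LIJ s) (N : ℕ) : ∃ E : ℕ → ℕ, PB E ∧
    ∀ (Δ H t : ℕ), (H + 2) ^ E Δ ≤ t → ∀ g : Fin N → ℕ, Function.Injective g → (∀ i, 1 ≤ g i ∧ g i ≤ H) →
    ∀ P : MvPolynomial (Fin N × Fin 3) ℚ, P.totalDegree ≤ Δ →
    MvPolynomial.aeval (fun p : Fin N × Fin 3 => vJ s t (g p.1) p.2) P = 0 → P = 0 := by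
  classical
  obtain ⟨E₁, hE₁⟩ := size_fJ (Pool.Agent.Y109.K.t_monj s hb hode)
  obtain ⟨q₀, Eb, c, Tg, hsys, hne⟩ := hb
  obtain ⟨q, EF, hEFp, hF⟩ := multi_exp q₀ (fun Δ => (Eb + 1) * ((q₀ + 6) * Δ + 1))
    ((PB.const (Eb + 1)).mul (((PB.const (q₀ + 6)).mul PB.id).add (PB.const 1))) N
  obtain ⟨EG, hEGp, hG⟩ := gof_exp Pool.Agent.Y141.GF.t_shid Pool.Agent.Y141.GF.t_loc q
  refine ⟨fun Δ => (c + 1) + (E₁ + 2) + (EF Δ + 1) * EG (((Δ + 1) ^ 4) ^ N), ?_, fun Δ H t ht g hinj hgH P hP hP0 => ?_⟩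
  · have h1 : PB fun Δ : ℕ => ((Δ + 1) ^ 4) ^ N := ((PB.id.add (PB.const 1)).pow 4).pow N
    exact (PB.const (c + 1 + (E₁ + 2))).add ((hEFp.add (PB.const 1)).mul (hEGp.comp h1))
  have hF := hF Δ (Pool.Agent.Y113.Ex Δ) (fun g e => monJ s g e) Tg (fun g => by
    refine (monJ_c hode s (hsys g) Δ).mono le_rfl ?_
    exact pow_base g _ _) H g (fun l => (hgH l).2)
  have hG := hG (((Δ + 1) ^ 4) ^ N)
  set EF := EF Δ
  set EG := EG (((Δ + 1) ^ 4) ^ N)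
  set E := (c + 1) + (E₁ + 2) + (EF + 1) * EG with hE
  have ht' : (H + 2) ^ E ≤ t := ht
  have hH2 : (1 : ℝ) ≤ (H : ℝ) + 2 := one_le_base H
  have htR : ((H : ℝ) + 2) ^ E ≤ t := by exact_mod_cast ht'
  have hge : ∀ a ≤ E, ((H : ℝ) + 2) ^ a ≤ t := fun a ha => (base_mono hH2 ha).trans htR
  have ht0' : 0 < t := lt_of_lt_of_le (by positivity) ht'
  have ht0 : (0 : ℝ) < t := by exact_mod_cast ht0'
  have htc : H + c < t := by
    have h1 : (H + 2) ^ (c + 1) ≤ t := (Nat.pow_le_pow_right (by omega) (by omega)).trans ht'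
    have h2 : (H + 2) ^ c * (H + 2) ≤ t := by rw [← pow_succ]; exact h1
    have h3 : 2 ^ c ≤ (H + 2) ^ c := Nat.pow_le_pow_left (by omega) _
    have h4 : c < 2 ^ c := Nat.lt_two_pow_self
    nlinarith
  have hcv : ∀ (l : Fin N) (i : Fin 3), Cv (t : ℝ) (fJ s (g l) i.castSucc) := by
    intro l i
    set B : ℝ := ((g l : ℝ) + 2) ^ E₁ with hB
    have hB0 : 0 ≤ B := by positivity
    refine Cv.of_bound (A := B) (B := B) ht0 hB0 ?_ fun m => ?_
    · have hH0 : (0 : ℝ) ≤ H := by positivity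
      have h2 : B ≤ ((H : ℝ) + 2) ^ E₁ := by
        refine pow_le_pow_left₀ (by positivity) ?_ _
        have : ((g l : ℕ) : ℝ) ≤ H := by exact_mod_cast (hgH l).2
        linarith
      have h3 : ((H : ℝ) + 2) ^ E₁ < ((H : ℝ) + 2) ^ (E₁ + 2) := pow_lt_pow_right₀ (by linarith) (by omega)
      have h4 : ((H : ℝ) + 2) ^ (E₁ + 2) ≤ (t : ℝ) := hge _ (by omega)
      linarith
    · exact (hE₁ (g l) i m).trans (le_of_eq (pow_succ' _ _))
  have h00 : ∑ i : Fin 3, (fun _ : Fin 3 => 0) i ≤ Δ := by simp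
  have hone : (fun b : Fin N → Pool.Agent.Y113.Ex Δ => ∏ l, monJ s (g l) (b l)) (fun _ => mkE (fun _ => 0) h00) = 1 := by
    refine Finset.prod_eq_one fun l _ => ?_
    rw [monJ_mkE]
    simp
  have hEG : (2 * ((H : ℝ) + 2) ^ EF) ^ EG ≤ t := by
    refine (pow_base H _ _).trans (hge _ ?_)
    rw [hE]
    omega
  have hcard : Fintype.card (Fin N → Pool.Agent.Y113.Ex Δ) ≤ ((Δ + 1) ^ 4) ^ N := by
    rw [Fintype.card_fun, Fintype.card_fin]
    exact Nat.pow_le_pow_left (card_Ex Δ) N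
  have hT0 : Polynomial.aeval (1 / (t : ℝ)) (∏ l, Tg (g l)) ≠ 0 := by
    rw [map_prod]
    refine Finset.prod_ne_zero_iff.2 fun l _ => hne _ _ ?_
    have := (hgH l).2
    omega
  have hLI := hG (Fin N → Pool.Agent.Y113.Ex Δ) (((H : ℝ) + 2) ^ EF) (∏ l, Tg (g l))
    (fun b : Fin N → Pool.Agent.Y113.Ex Δ => ∏ l, monJ s (g l) (b l)) (fun _ => mkE (fun _ => 0) h00) t hcard hF hone
    (hl N Δ g hinj fun l => (hgH l).1) hEG hT0
  -- the exponents
  have hdeg : ∀ m ∈ P.support, ∑ p, m p ≤ Δ := by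
    intro m hm'
    have h1 := (MvPolynomial.le_totalDegree hm').trans hP
    rwa [Finsupp.sum_fintype _ _ (fun _ => rfl)] at h1
  have hdl : ∀ m ∈ P.support, ∀ l : Fin N, ∑ i : Fin 3, m (l, i) ≤ Δ := by
    intro m hm' l
    refine le_trans ?_ (hdeg m hm')
    rw [Fintype.sum_prod_type]
    exact Finset.single_le_sum (f := fun l => ∑ i : Fin 3, m (l, i)) (fun _ _ => Nat.zero_le _) (Finset.mem_univ l)
  let bs : P.support → Fin N → Pool.Agent.Y113.Ex Δ := fun m l =>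
    mkE (fun i => (m : (Fin N × Fin 3) →₀ ℕ) (l, i)) (hdl m m.2 l)
  have hbs : Function.Injective bs := by
    intro m m' h
    apply Subtype.ext
    ext ⟨l, i⟩
    exact congrFun (mkE_inj _ _ (congrFun h l)) i
  have hLI2 := hLI.comp bs hbs
  -- the values
  have hevp : ∀ b : Fin N → Pool.Agent.Y113.Ex Δ, (∀ l, Cv (t : ℝ) (monJ s (g l) (b l))) →
      ev (t : ℝ) (∏ l, monJ s (g l) (b l)) = ∏ l, ev (t : ℝ) (monJ s (g l) (b l)) := fun b hb =>
    Cv.ev_prod ht0 _ _ fun l _ => hb l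
  have hcm : ∀ (m : P.support) (l : Fin N), Cv (t : ℝ) (monJ s (g l) (bs m l)) := by
    intro m l
    show Cv (t : ℝ) (monJ s (g l) (mkE (fun i => (m : (Fin N × Fin 3) →₀ ℕ) (l, i)) (hdl m m.2 l)))
    rw [monJ_mkE]
    exact Cv.prod ht0 _ _ fun i _ => (hcv l i).pow ht0 _
  have hval : ∀ m : P.support, ∏ p : Fin N × Fin 3, (vJ s t (g p.1) p.2) ^ (m : (Fin N × Fin 3) →₀ ℕ) p =
      ((ev (t : ℝ) (∏ l, monJ s (g l) (bs m l)) : ℝ) : ℂ) := by
    intro m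
    rw [hevp _ (hcm m), Fintype.prod_prod_type, Complex.ofReal_prod]
    refine Finset.prod_congr rfl fun l _ => ?_
    show _ = ((ev (t : ℝ) (monJ s (g l) (mkE (fun i => (m : (Fin N × Fin 3) →₀ ℕ) (l, i)) (hdl m m.2 l))) : ℝ) : ℂ)
    rw [monJ_mkE, Cv.ev_prod ht0 Finset.univ (fun i : Fin 3 => fJ s (g l) i.castSucc ^ (m : (Fin N × Fin 3) →₀ ℕ) (l, i))
      (fun i _ => (hcv l i).pow ht0 _), Complex.ofReal_prod]
    refine Finset.prod_congr rfl fun i _ => ?_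
    rw [Cv.ev_pow ht0 (hcv l i), Complex.ofReal_pow]
    rfl
  have hrel : ∑ m : P.support, P.coeff m • ev (t : ℝ) (∏ l, monJ s (g l) (bs m l)) = 0 := by
    have h1 : ((∑ m : P.support, P.coeff m • ev (t : ℝ) (∏ l, monJ s (g l) (bs m l)) : ℝ) : ℂ) = 0 := by
      rw [← hP0, MvPolynomial.aeval_def, MvPolynomial.eval₂_eq', Complex.ofReal_sum, ← Finset.sum_coe_sort P.support]
      refine Finset.sum_congr rfl fun m _ => ?_
      rw [hval m, Rat.smul_def, Complex.ofReal_mul, Complex.ofReal_ratCast, eq_ratCast]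
    exact_mod_cast h1
  have h2 := (Fintype.linearIndependent_iff.1 hLI2) (fun m => P.coeff m) hrel
  by_contra hP1
  obtain ⟨m, hm'⟩ := MvPolynomial.ne_zero_iff.1 hP1
  exact hm' (h2 ⟨m, MvPolynomial.mem_support_iff.2 hm'⟩)

/-- the windows theorem for free coordinates -/
theorem absFree_exp {ε : Type} [Fintype ε] [DecidableEq ε] (val : ℕ → ℕ → ε → ℂ)
    (hval : ∀ N : ℕ, ∃ E : ℕ → ℕ, PB E ∧
      ∀ (Δ H t : ℕ), (H + 2) ^ E Δ ≤ t → ∀ g : Fin N → ℕ, Function.Injective g → (∀ i, 1 ≤ g i ∧ g i ≤ H) →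
      ∀ P : MvPolynomial (Fin N × ε) ℚ, P.totalDegree ≤ Δ →
      MvPolynomial.aeval (fun p : Fin N × ε => val t (g p.1) p.2) P = 0 → P = 0) (k τ : ℕ) :
    ∃ E : ℕ → ℕ, PB E ∧ ∀ δ H t : ℕ, (H + 2) ^ E δ ≤ t → ∀ (υ : Type) [Fintype υ], Fintype.card υ = τ → ∀ w : υ → ℂ,
      ∃ S : Finset ℕ, S.card ≤ τ ∧
      ∀ g : Fin k → ℕ, Function.Injective g → (∀ i, 1 ≤ g i ∧ g i ≤ H ∧ g i ∉ S) →
      ∀ K : IntermediateField ℚ ℂ, FiniteDimensional ℚ K → Module.finrank ℚ K ≤ δ →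
      ∀ P : MvPolynomial (υ ⊕ Fin k × ε) K, P.totalDegree ≤ δ →
      MvPolynomial.aeval (Sum.elim w fun a : Fin k × ε => val t (g a.1) a.2) P = 0 →
      ∀ y, MvPolynomial.aeval (Sum.elim w y) P = 0 := by
  choose Ev hEvp hEv using hval
  obtain ⟨E, hEp, hE⟩ := awh_exp Ev hEvp (σ := ε) k τ 1 1
  refine ⟨E, hEp, fun δ H t ht υ _ hυ w => ?_⟩
  obtain ⟨S, hS, h⟩ := hE δ ℂ ℕ (fun t => t) val (fun N Δ H t ht g hg hgb P hP hP0 => hEv N Δ H t ht g hg hgb P hP hP0)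
    H t ht υ w Finset.univ (by rw [Finset.card_univ, hυ]) (Pool.Agent.Y916.Om.Dom.univ w)
  refine ⟨S, hS, fun g hg hgS K hK hKd P hP hP0 y => ?_⟩
  have h1 := h g hg hgS K hK hKd (fun a => val t (g a.1) a.2) (fun p => ⟨1, one_ne_zero, by simp⟩) P hP hP0
  have h2 := congrArg (MvPolynomial.aeval y : MvPolynomial (Fin k × ε) ℂ →ₐ[ℂ] ℂ) h1
  rw [map_zero] at h2
  rw [← h2]
  have h3 : ((MvPolynomial.aeval y : MvPolynomial (Fin k × ε) ℂ →ₐ[ℂ] ℂ).restrictScalars K).comp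
      (MvPolynomial.aeval (Sum.elim (fun j => MvPolynomial.C (w j)) MvPolynomial.X) :
        MvPolynomial (υ ⊕ Fin k × ε) K →ₐ[K] MvPolynomial (Fin k × ε) ℂ) = MvPolynomial.aeval (Sum.elim w y) := by
    refine MvPolynomial.algHom_ext fun i => ?_
    rw [AlgHom.comp_apply, MvPolynomial.aeval_X, MvPolynomial.aeval_X, AlgHom.restrictScalars_apply]
    rcases i with j | j
    · rw [Sum.elim_inl, Sum.elim_inl, MvPolynomial.aeval_C]
      rfl
    · rw [Sum.elim_inr, Sum.elim_inr, MvPolynomial.aeval_X]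
  rw [← h3, AlgHom.comp_apply, AlgHom.restrictScalars_apply]

end Pool.Agent.R351.GD
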