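import Pool.Agent.Y120.K.WinI
import Pool.Agent.Y120.K.All
import Pool.Agent.R351.GD.J.Nrj

/-!
# Windows of integral modular invariants, with exponents which are polynomial in the degree
-/

set_option autoImplicit false

open PowerSeries Pool.Agent.Y113 Pool.Agent.Y120.GF Pool.Agent.Y120.GH Pool.Agent.Y120.J Pool.Agent.Y120.R
open Pool.Agent.Y120.K
open Pool.Agent.TH21.MS (jj)

namespace Pool.Agent.R351.GD

/-- windows for integers of one sign: all distinct integers -/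
theorem winK_exp (s : Bool) (hn : ∀ N : ℕ, ∃ E : ℕ → ℕ, PB E ∧
      ∀ (Δ H t : ℕ), (H + 2) ^ E Δ ≤ t → ∀ g : Fin N → ℕ, Function.Injective g → (∀ i, 1 ≤ g i ∧ g i ≤ H) →
      ∀ P : MvPolynomial (Fin N × Fin 3) ℚ, P.totalDegree ≤ Δ →
      MvPolynomial.aeval (fun p : Fin N × Fin 3 => vJ s t (g p.1) p.2) P = 0 → P = 0) (q k : ℕ) :
    ∃ E : ℕ → ℕ, PB E ∧ ∀ δ H t : ℕ, (H + 2) ^ E δ ≤ t → ∀ w : Fin q → ℂ,
    ∃ S : Finset ℕ, S.card ≤ q + 2 ∧ ∀ g : Fin k → ℕ, Function.Injective g → (∀ i, 1 ≤ g i ∧ g i ≤ H ∧ g i ∉ S) →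
    ∀ z : Fin k → UpperHalfPlane, (∀ i, jj (z i) = ((si s * ((t - g i : ℕ) : ℤ) : ℤ) : ℂ)) →
    ∀ K : IntermediateField ℚ ℂ, FiniteDimensional ℚ K → Module.finrank ℚ K ≤ δ →
    ∀ P : MvPolynomial (Option (Fin q) ⊕ Fin k × Fin 3) K, P.totalDegree ≤ δ →
    MvPolynomial.aeval (Sum.elim (wo w) fun v : Fin k × Fin 3 => jt (z v.1) v.2) P = 0 →
    ∀ u, MvPolynomial.aeval (Sum.elim (wo w) u) P = 0 := by
  classical
  obtain ⟨T, hT⟩ := all_PT s
  obtain ⟨w₀, hw₀⟩ := exists_nat_ge T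
  obtain ⟨C, hC, hsz⟩ := size_hS s
  obtain ⟨c₀, hc₀⟩ := exists_nat_gt C
  obtain ⟨E₂, hE₂p, hE₂⟩ := absFree_exp (vJ s) hn k (q + 2)
  refine ⟨fun δ => E₂ (Fintype.card (Option (Fin q)) * (δ * 24) + Fintype.card (Fin k × Fin 3) * (δ * 24)) +
    (w₀ + c₀ + 2), ?_, fun δ H t ht w => ?_⟩
  · exact (hE₂p.comp (((PB.const _).mul (PB.id.mul (PB.const 24))).add ((PB.const _).mul (PB.id.mul (PB.const 24))))).add
      (PB.const _)
  set d := Fintype.card (Option (Fin q)) * (δ * 24) + Fintype.card (Fin k × Fin 3) * (δ * 24) with hd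
  have hδd : δ ≤ d := by
    have h1 : 1 ≤ Fintype.card (Option (Fin q)) := Fintype.card_pos
    have h2 : δ * 24 ≤ Fintype.card (Option (Fin q)) * (δ * 24) := Nat.le_mul_of_pos_left _ h1
    omega
  have hE := hE₂ d
  have ht : (H + 2) ^ (E₂ d + (w₀ + c₀ + 2)) ≤ t := ht
  set E := E₂ d
  have h2 : 1 ≤ H + 2 := by omega
  have hEt : (H + 2) ^ E ≤ t := (Nat.pow_le_pow_right h2 (by omega)).trans ht
  have hbig : ∀ g, g ≤ H → w₀ + c₀ + g + 1 ≤ t := by
    intro g hg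
    have e0 : (H + 2) ^ (w₀ + c₀ + 2) ≤ t := (Nat.pow_le_pow_right h2 (by omega)).trans ht
    have e1 : 2 ^ (w₀ + c₀ + 1) * (H + 2) ≤ (H + 2) ^ (w₀ + c₀ + 1) * (H + 2) :=
      Nat.mul_le_mul_right _ (Nat.pow_le_pow_left (by omega) _)
    have e2 : (H + 2) ^ (w₀ + c₀ + 1) * (H + 2) = (H + 2) ^ (w₀ + c₀ + 2) := by rw [← pow_succ]
    have e3 : w₀ + c₀ + 1 < 2 ^ (w₀ + c₀ + 1) := Nat.lt_two_pow_self
    have e4 : 2 ^ (w₀ + c₀ + 1) + H ≤ 2 ^ (w₀ + c₀ + 1) * (H + 2) := by nlinarith [Nat.one_le_two_pow (n := w₀ + c₀ + 1)]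
    omega
  obtain ⟨S, hS, hwin⟩ := hE H t hEt (Fin 1 ⊕ Option (Fin q)) (by
    rw [Fintype.card_sum, Fintype.card_option, Fintype.card_fin, Fintype.card_fin]
    omega) (Sum.elim (fun _ : Fin 1 => tpi) fun o : Option (Fin q) => o.elim ((Real.log t : ℝ) : ℂ) w)
  refine ⟨S, hS, ?_⟩
  intro g hg hgS z hz K hK hKD P hPδ hP u
  -- the points
  have hti0 : ∀ i, (si s * ((t - g i : ℕ) : ℤ)) ≠ 0 := by
    intro i
    have h3 := hbig _ (hgS i).2.1
    have h4 : (((t - g i : ℕ) : ℤ)) ≠ 0 := by omega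
    refine mul_ne_zero ?_ h4
    unfold si
    split_ifs <;> norm_num
  have hpt := fun i => hT ((t - g i : ℕ) : ℝ) (z i) (hw₀.trans (by
    have := hbig _ (hgS i).2.1
    exact_mod_cast (by omega))) (by rw [hz i]; push_cast; rfl)
  choose γ ω hγ hZ0 hω hd1 hd2 using hpt
  have hpts : ∀ i, (∀ j, e2 (pS s ((t - g i : ℕ) : ℝ)) (mm (γ i 1 0) (γ i 1 1) j) ≠ 0) ∧
      ∀ j, jt (z i) j = e2 (pS s ((t - g i : ℕ) : ℝ)) (nn (γ i 0 0) (γ i 0 1) (γ i 1 0) (γ i 1 1)
        (si s * ((t - g i : ℕ) : ℤ)) j) / e2 (pS s ((t - g i : ℕ) : ℝ)) (mm (γ i 1 0) (γ i 1 1) j) := fun i =>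
    ptsS (t := si s * ((t - g i : ℕ) : ℤ)) (hZ0 i) (hω i) (by rw [hd1 i]; push_cast; ring)
      (by rw [hd2 i]; push_cast; ring) (γ i) (hγ i)
  have hpS : ∀ i, pS s ((t - g i : ℕ) : ℝ) = Zo (if s then 0 else 1 / 2) ((Real.log t : ℝ) : ℂ) (vJ s t (g i)) := by
    intro i
    refine pS_eq hC hsz ?_
    have h3 := hbig _ (hgS i).2.1
    have h4 : (g i : ℝ) + c₀ ≤ t := by exact_mod_cast (by omega)
    linarith
  -- the polynomial
  set W : Option (Fin q) → MvPolynomial (Vr q k) K := fun o => MvPolynomial.X (Sum.inl (o.elim (Sum.inl 0)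
    fun l => Sum.inr (some l))) with hW
  set Np : Fin k × Fin 3 → MvPolynomial (Vr q k) K := fun v => MvPolynomial.aeval (Zp K q s v.1)
    (MvPolynomial.map (Int.castRingHom K) (nn (γ v.1 0 0) (γ v.1 0 1) (γ v.1 1 0) (γ v.1 1 1)
      (si s * ((t - g v.1 : ℕ) : ℤ)) v.2)) with hNp
  set Mp : Fin k × Fin 3 → MvPolynomial (Vr q k) K := fun v => MvPolynomial.aeval (Zp K q s v.1)
    (MvPolynomial.map (Int.castRingHom K) (mm (γ v.1 1 0) (γ v.1 1 1) v.2)) with hMp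
  have hNe : ∀ (y : Fin k × Fin 3 → ℂ) v, MvPolynomial.aeval (pt ((Real.log t : ℝ) : ℂ) w y) (Np v) =
      e2 (Zo (if s then 0 else 1 / 2) ((Real.log t : ℝ) : ℂ) fun i => y (v.1, i))
        (nn (γ v.1 0 0) (γ v.1 0 1) (γ v.1 1 0) (γ v.1 1 1) (si s * ((t - g v.1 : ℕ) : ℤ)) v.2) := by
    intro y v
    rw [hNp]
    show MvPolynomial.aeval _ (MvPolynomial.aeval _ (MvPolynomial.map _ _)) = _
    rw [aeval_int, Zp_eval]
    rfl
  have hMe : ∀ (y : Fin k × Fin 3 → ℂ) v, MvPolynomial.aeval (pt ((Real.log t : ℝ) : ℂ) w y) (Mp v) =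
      e2 (Zo (if s then 0 else 1 / 2) ((Real.log t : ℝ) : ℂ) fun i => y (v.1, i)) (mm (γ v.1 1 0) (γ v.1 1 1) v.2) := by
    intro y v
    rw [hMp]
    show MvPolynomial.aeval _ (MvPolynomial.aeval _ (MvPolynomial.map _ _)) = _
    rw [aeval_int, Zp_eval]
    rfl
  have hWe : ∀ y : Fin k × Fin 3 → ℂ, (fun a => MvPolynomial.aeval (pt ((Real.log t : ℝ) : ℂ) w y) (W a)) = wo w := by
    intro y
    funext a
    rw [hW]
    show MvPolynomial.aeval _ (MvPolynomial.X _) = _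
    rw [MvPolynomial.aeval_X]
    rcases a with _ | a <;> rfl
  have hdeg : (clr δ W Np Mp P).totalDegree ≤
      Fintype.card (Option (Fin q)) * (δ * 24) + Fintype.card (Fin k × Fin 3) * (δ * 24) := by
    refine clr_deg hPδ (fun a => (dX _).trans (by norm_num)) (fun v => ?_) fun v => ?_
    · exact (aeval_int_deg (nn_deg _ _ _ _ _ _) fun i => Zp_deg s v.1 i).trans (by norm_num)
    · exact (aeval_int_deg (mm_deg _ _ _) fun i => Zp_deg s v.1 i).trans (by norm_num)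
  -- it vanishes at the values
  have hzero : MvPolynomial.aeval (pt ((Real.log t : ℝ) : ℂ) w fun a : Fin k × Fin 3 => vJ s t (g a.1) a.2)
      (clr δ W Np Mp P) = 0 := by
    rw [clr_eval hPδ, hWe]
    · have e1 : (fun b : Fin k × Fin 3 => MvPolynomial.aeval (pt ((Real.log t : ℝ) : ℂ) w
          fun a : Fin k × Fin 3 => vJ s t (g a.1) a.2) (Np b) / MvPolynomial.aeval (pt ((Real.log t : ℝ) : ℂ) w
          fun a : Fin k × Fin 3 => vJ s t (g a.1) a.2) (Mp b)) = fun v => jt (z v.1) v.2 := by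
        funext v
        rw [hNe, hMe, (hpts v.1).2 v.2, hpS v.1]
      rw [e1, hP, mul_zero]
    · intro b
      rw [hMe]
      have := (hpts b.1).1 b.2
      rwa [hpS b.1] at this
  have hall : ∀ y : Fin k × Fin 3 → ℂ, MvPolynomial.aeval (pt ((Real.log t : ℝ) : ℂ) w y) (clr δ W Np Mp P) = 0 :=
    fun y => hwin g hg hgS K hK (hKD.trans hδd) _ hdeg hzero y
  -- the substitution of the constants
  let p : MvPolynomial (Fin k × Fin 3) ℂ := MvPolynomial.eval₂Hom (MvPolynomial.C.comp (algebraMap K ℂ))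
    (Sum.elim (fun a => MvPolynomial.C (wo w a)) MvPolynomial.X) P
  have hp : ∀ u, MvPolynomial.eval u p = MvPolynomial.aeval (Sum.elim (wo w) u) P := by
    intro u
    show MvPolynomial.eval u (MvPolynomial.eval₂Hom _ _ P) = _
    have e1 : (MvPolynomial.eval u).comp (MvPolynomial.eval₂Hom (MvPolynomial.C.comp (algebraMap K ℂ))
        (Sum.elim (fun a => MvPolynomial.C (wo w a)) MvPolynomial.X)) =
        ((MvPolynomial.aeval (Sum.elim (wo w) u) : MvPolynomial (Option (Fin q) ⊕ Fin k × Fin 3) K →ₐ[K] ℂ) :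
          MvPolynomial (Option (Fin q) ⊕ Fin k × Fin 3) K →+* ℂ) := by
      refine MvPolynomial.ringHom_ext (fun r => ?_) fun i => ?_
      · simp
      · rcases i with a | b
        · simp
        · simp
    exact RingHom.congr_fun e1 P
  have hp0 : p = 0 := by
    refine dense_zero (a := fun j => γ j 0 0) (c := fun j => γ j 1 0) (fun j => ?_) fun u hu => ?_
    · by_contra hcon
      push Not at hcon
      have h1 := (γ j).det_coe
      rw [Matrix.det_fin_two, hcon.1, hcon.2] at h1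
      simp at h1
    · rw [hp]
      have hpre : ∀ j, ∃ v : Fin 3 → ℂ,
          (∀ i, e2 (Zo (if s then 0 else 1 / 2) ((Real.log t : ℝ) : ℂ) v) (mm (γ j 1 0) (γ j 1 1) i) ≠ 0) ∧
          ∀ i, u (j, i) = e2 (Zo (if s then 0 else 1 / 2) ((Real.log t : ℝ) : ℂ) v)
            (nn (γ j 0 0) (γ j 0 1) (γ j 1 0) (γ j 1 1) (si s * ((t - g j : ℕ) : ℤ)) i) /
            e2 (Zo (if s then 0 else 1 / 2) ((Real.log t : ℝ) : ℂ) v) (mm (γ j 1 0) (γ j 1 1) i) := by
        intro j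
        have hdet : (γ j 0 0) * (γ j 1 1) - (γ j 0 1) * (γ j 1 0) = 1 := by
          have h1 := (γ j).det_coe
          rw [Matrix.det_fin_two] at h1
          exact h1
        obtain ⟨Z, hZ, h3, h4⟩ := exists_Z (u := fun i => u (j, i)) hdet (hti0 j) (hu j).1 (hu j).2
        obtain ⟨v, hv⟩ := exists_Zo (if s then 0 else 1 / 2) ((Real.log t : ℝ) : ℂ) hZ
        exact ⟨v, by rw [hv]; exact h3, by rw [hv]; exact h4⟩
      choose v hv1 hv2 using hpre
      have h5 := hall fun a => v a.1 a.2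
      rw [clr_eval hPδ _ fun b => by rw [hMe]; exact hv1 b.1 b.2, hWe] at h5
      have e1 : (fun b : Fin k × Fin 3 => MvPolynomial.aeval (pt ((Real.log t : ℝ) : ℂ) w
          fun a : Fin k × Fin 3 => v a.1 a.2) (Np b) / MvPolynomial.aeval (pt ((Real.log t : ℝ) : ℂ) w
          fun a : Fin k × Fin 3 => v a.1 a.2) (Mp b)) = u := by
        funext b
        rw [hNe, hMe]
        exact (hv2 b.1 b.2).symm
      rw [e1] at h5
      refine (mul_eq_zero.1 h5).resolve_left ?_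
      refine Finset.prod_ne_zero_iff.2 fun b _ => pow_ne_zero _ ?_
      rw [hMe]
      exact hv1 b.1 b.2
  rw [← hp u, hp0, map_zero]

/-- windows in terms of the integers -/
theorem winZ2_exp (q k : ℕ) : ∃ E : ℕ → ℕ, PB E ∧ ∀ δ N H : ℕ, (H + 2) ^ E δ ≤ N → ∀ (w : Fin q → ℂ) (s : Bool),
    ∃ S : Finset ℤ, S.card ≤ q + 2 ∧ ∀ n : Fin k → ℤ, Function.Injective n →
    (∀ i, (N : ℤ) ≤ si s * n i ∧ si s * n i ≤ N + H ∧ n i ∉ S) →
    ∀ z : Fin k → UpperHalfPlane, (∀ i, jj (z i) = n i) →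
    ∀ K : IntermediateField ℚ ℂ, FiniteDimensional ℚ K → Module.finrank ℚ K ≤ δ →
    ∀ P : MvPolynomial (Option (Fin q) ⊕ Fin k × Fin 3) K, P.totalDegree ≤ δ →
    MvPolynomial.aeval (Sum.elim (wo w) fun v : Fin k × Fin 3 => jt (z v.1) v.2) P = 0 →
    ∀ u, MvPolynomial.aeval (Sum.elim (wo w) u) P = 0 := by
  classical
  have h0 := fun s => winK_exp s (nrjE s (hbase s) hode (hlij s)) q k
  choose E₀ hE₀p hE₀ using h0
  refine ⟨fun δ => 2 * (E₀ true δ + E₀ false δ), (PB.const 2).mul ((hE₀p true).add (hE₀p false)),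
    fun δ N H hN w s => ?_⟩
  have hN : (H + 2) ^ (2 * (E₀ true δ + E₀ false δ)) ≤ N := hN
  have hE : (H + 1 + 2) ^ E₀ s δ ≤ N + H + 1 := by
    have h1 : H + 1 + 2 ≤ (H + 2) ^ 2 := by nlinarith
    have h2 : (H + 1 + 2) ^ E₀ s δ ≤ (H + 2) ^ (2 * E₀ s δ) := by
      rw [pow_mul]
      exact Nat.pow_le_pow_left h1 _
    have h3 : (H + 2) ^ (2 * E₀ s δ) ≤ (H + 2) ^ (2 * (E₀ true δ + E₀ false δ)) := by
      refine Nat.pow_le_pow_right (by omega) ?_
      cases s <;> omega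
    omega
  obtain ⟨S, hS, hwin⟩ := hE₀ s δ (H + 1) (N + H + 1) hE w
  have hsi : si s * si s = 1 := by
    unfold si
    split_ifs <;> norm_num
  refine ⟨S.image fun g : ℕ => si s * (((N + H + 1 : ℕ) : ℤ) - (g : ℤ)), Finset.card_image_le.trans hS, ?_⟩
  intro n hn hnS z hz K hK hKD P hP hP0
  set g : Fin k → ℕ := fun i => (((N + H + 1 : ℕ) : ℤ) - si s * n i).toNat with hg
  have hgi : ∀ i, (g i : ℤ) = (N + H + 1 : ℕ) - si s * n i := by
    intro i
    have := (hnS i).2.1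
    rw [hg]
    show ((((N + H + 1 : ℕ) : ℤ) - si s * n i).toNat : ℤ) = _
    rw [Int.toNat_of_nonneg]
    push_cast
    linarith
  have hni : ∀ i, n i = si s * ((N + H + 1 : ℕ) - (g i : ℤ)) := by
    intro i
    rw [hgi i]
    linear_combination (-(n i)) * hsi
  have hinj : Function.Injective g := by
    intro i j hij
    apply hn
    rw [hni i, hni j, hij]
  have hg1 : ∀ i, 1 ≤ g i := by
    intro i
    have h1 := hgi i
    have h2 := (hnS i).2.1
    push_cast at h1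
    have h3 : (1 : ℤ) ≤ g i := by linarith
    exact_mod_cast h3
  have hgH : ∀ i, g i ≤ H + 1 := by
    intro i
    have h1 := hgi i
    have h2 := (hnS i).1
    push_cast at h1
    have h3 : (g i : ℤ) ≤ H + 1 := by linarith
    exact_mod_cast h3
  refine hwin g hinj (fun i => ⟨hg1 i, hgH i, fun hmem => ?_⟩) z (fun i => ?_) K hK hKD P hP hP0
  · exact (hnS i).2.2 (Finset.mem_image.2 ⟨g i, hmem, (hni i).symm⟩)
  · rw [hz i, hni i]
    have h1 : ((N + H + 1 - g i : ℕ) : ℤ) = ((N + H + 1 : ℕ) : ℤ) - (g i : ℤ) :=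
      Nat.cast_sub ((hgH i).trans (by omega))
    rw [h1]

/-- windows for isogeny classes -/
theorem winI_exp (q k : ℕ) : ∃ E : ℕ → ℕ, PB E ∧ ∀ δ N H : ℕ, (H + 2) ^ E δ ≤ N → ∀ (w : Fin q → ℂ) (s : Bool),
    ∃ S : Finset ℤ, S.card ≤ q + 2 ∧ ∀ n : Fin k → ℤ, Function.Injective n →
    (∀ i, (N : ℤ) ≤ si s * n i ∧ si s * n i ≤ N + H ∧ n i ∉ S) →
    ∀ v : Fin k → UpperHalfPlane, (∀ i, jj (v i) = n i) →
    ∀ z : Fin k → ℂ, (∀ i, ∃ a b c d : ℚ, a * d - b * c ≠ 0 ∧ z i = ((a : ℂ) * v i + b) / ((c : ℂ) * v i + d)) →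
    ∀ K : IntermediateField ℚ ℂ, FiniteDimensional ℚ K → Module.finrank ℚ K ≤ δ →
    ∀ P : MvPolynomial (Option (Fin q) ⊕ Fin k) K, P.totalDegree ≤ δ →
    MvPolynomial.aeval (Sum.elim (wo w) z) P = 0 → ∀ u, MvPolynomial.aeval (Sum.elim (wo w) u) P = 0 := by
  classical
  obtain ⟨E, hEp, hE⟩ := winZ2_exp q k
  refine ⟨fun δ => E (Fintype.card (Option (Fin q)) * (δ * 1) + Fintype.card (Fin k) * (δ * 1)),
    hEp.comp (((PB.const _).mul (PB.id.mul (PB.const 1))).add ((PB.const _).mul (PB.id.mul (PB.const 1)))),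
    fun δ N H hN w s => ?_⟩
  have hδd : δ ≤ Fintype.card (Option (Fin q)) * (δ * 1) + Fintype.card (Fin k) * (δ * 1) := by
    have h1 : 1 ≤ Fintype.card (Option (Fin q)) := Fintype.card_pos
    have h2 : δ * 1 ≤ Fintype.card (Option (Fin q)) * (δ * 1) := Nat.le_mul_of_pos_left _ h1
    omega
  obtain ⟨S, hS, h⟩ := hE _ N H hN w s
  refine ⟨S, hS, fun n hn1 hnS v hv z hz K hK hKD P hP hP0 => ?_⟩
  choose g hg using fun i => toM4 (hz i)
  have hdet : ∀ i, ((g i).a : ℂ) * (g i).d - (g i).b * (g i).c ≠ 0 := fun i => by exact_mod_cast (g i).det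
  have hden : ∀ i, ((g i).c : ℂ) * (v i : ℂ) + (g i).d ≠ 0 := by
    intro i h0
    have h1 := hg i
    rw [h0, mul_zero] at h1
    have h2 := hdet i
    by_cases hc : ((g i).c : ℂ) = 0
    · rw [hc, zero_mul, zero_add] at h0
      apply h2
      rw [hc, h0]
      ring
    · apply h2
      have h3 : ((g i).c : ℂ) * (((g i).a : ℂ) * (g i).d - (g i).b * (g i).c) = 0 := by
        linear_combination ((g i).a : ℂ) * (g i).c * h0 + ((g i).c : ℂ) ^ 2 * h1
      exact (mul_eq_zero.1 h3).resolve_left hc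
  set P' := clr δ (fun o => (MvPolynomial.X (Sum.inl o) : MvPolynomial (Option (Fin q) ⊕ Fin k × Fin 3) K))
    (fun i => lin K q (g i).a (g i).b i) (fun i => lin K q (g i).c (g i).d i) P with hP'
  have hdeg : P'.totalDegree ≤ Fintype.card (Option (Fin q)) * (δ * 1) + Fintype.card (Fin k) * (δ * 1) :=
    clr_deg hP (fun a => dX _) (fun b => lin_deg _ _ _) fun b => lin_deg _ _ _
  have hmain := h n hn1 hnS v hv K hK (hKD.trans hδd) P' hdeg (by
    rw [hP', clr_eval hP _ fun i => by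
      rw [lin_eval, Sum.elim_inr]
      exact hden i]
    refine mul_eq_zero_of_right _ ?_
    rw [← hP0]
    congr 2
    funext o
    rcases o with o | i
    · rw [Sum.elim_inl, Sum.elim_inl, MvPolynomial.aeval_X, Sum.elim_inl]
    · rw [Sum.elim_inr, Sum.elim_inr, lin_eval, lin_eval, Sum.elim_inr]
      show ((g i).a * (v i : ℂ) + (g i).b) / ((g i).c * (v i : ℂ) + (g i).d) = z i
      rw [← hg i, mul_div_assoc, div_self (hden i), mul_one])
  have hkey : ∀ u : Fin k → ℂ, (∀ i, ((g i).a : ℂ) - (g i).c * u i ≠ 0) →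
      MvPolynomial.aeval (Sum.elim (wo w) u) P = 0 := by
    intro u hu
    have h1 := hmain fun p => if p.2 = 0 then ((g p.1).d * u p.1 - (g p.1).b) / ((g p.1).a - (g p.1).c * u p.1) else 0
    have hM : ∀ i, ((g i).c : ℂ) * (((g i).d * u i - (g i).b) / ((g i).a - (g i).c * u i)) + (g i).d =
        (((g i).a : ℂ) * (g i).d - (g i).b * (g i).c) / ((g i).a - (g i).c * u i) := fun i => mo1 (hu i)
    have hN' : ∀ i, ((g i).a : ℂ) * (((g i).d * u i - (g i).b) / ((g i).a - (g i).c * u i)) + (g i).b =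
        (((g i).a : ℂ) * (g i).d - (g i).b * (g i).c) * u i / ((g i).a - (g i).c * u i) := fun i => mo2 (hu i)
    have hM0 : ∀ i, ((g i).c : ℂ) * (((g i).d * u i - (g i).b) / ((g i).a - (g i).c * u i)) + (g i).d ≠ 0 := by
      intro i
      rw [hM i]
      exact div_ne_zero (hdet i) (hu i)
    rw [hP', clr_eval hP _ fun i => by
      rw [lin_eval, Sum.elim_inr]
      simp only [if_true]
      exact hM0 i] at h1
    have h2 := (mul_eq_zero.1 h1).resolve_left (Finset.prod_ne_zero_iff.2 fun i _ => pow_ne_zero _ (by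
      rw [lin_eval, Sum.elim_inr]
      simp only [if_true]
      exact hM0 i))
    rw [← h2]
    congr 2
    funext o
    rcases o with o | i
    · rw [Sum.elim_inl, Sum.elim_inl, MvPolynomial.aeval_X, Sum.elim_inl]
    · rw [Sum.elim_inr, Sum.elim_inr, lin_eval, lin_eval, Sum.elim_inr]
      simp only [if_true]
      rw [hM i, hN' i]
      exact (mo3 (hu i) (hdet i)).symm
  have hfr : fr w P * ∏ i, (MvPolynomial.C ((g i).a : ℂ) - MvPolynomial.C ((g i).c : ℂ) * MvPolynomial.X i) = 0 := by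
    refine MvPolynomial.funext fun u => ?_
    rw [map_mul, map_zero, map_prod, fr_eval]
    by_cases hu : ∀ i, ((g i).a : ℂ) - (g i).c * u i ≠ 0
    · rw [hkey u hu, zero_mul]
    · push Not at hu
      obtain ⟨i, hi⟩ := hu
      refine mul_eq_zero_of_right _ (Finset.prod_eq_zero (Finset.mem_univ i) ?_)
      rw [map_sub, map_mul, MvPolynomial.eval_C, MvPolynomial.eval_C, MvPolynomial.eval_X]
      exact hi
  have hfr0 : fr w P = 0 := by
    refine (mul_eq_zero.1 hfr).resolve_right (Finset.prod_ne_zero_iff.2 fun i _ hi => ?_)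
    have h0 := congrArg (MvPolynomial.eval fun _ => (0 : ℂ)) hi
    have h1 := congrArg (MvPolynomial.eval fun _ => (1 : ℂ)) hi
    rw [map_sub, map_mul, MvPolynomial.eval_C, MvPolynomial.eval_C, MvPolynomial.eval_X, map_zero, mul_zero, sub_zero] at h0
    rw [map_sub, map_mul, MvPolynomial.eval_C, MvPolynomial.eval_C, MvPolynomial.eval_X, map_zero, mul_one, h0, zero_sub,
      neg_eq_zero] at h1
    apply hdet i
    rw [h0, h1]
    ring
  intro u
  rw [← fr_eval, hfr0, map_zero]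

end Pool.Agent.R351.GD
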