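import Pool.Agent.R351.GD.J.GenI
import Pool.Agent.R351.GD.L.Tup
import Pool.Agent.R351.GD.J.Win

/-!
# Tuples of integral modular invariants: relations of growing degree
-/

set_option autoImplicit false

open PowerSeries Pool.Agent.Y113 Pool.Agent.Y120.GF Pool.Agent.Y120.GH Pool.Agent.Y120.J Pool.Agent.Y120.R
open Pool.Agent.Y120.K
open Pool.Agent.TH21.MS (jj)

namespace Pool.Agent.R351.GD

theorem aeval_degc {σ τ R : Type} [CommRing R] [Nontrivial R] (c : ℕ) (f : σ → MvPolynomial τ R)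
    (hf : ∀ i, (f i).totalDegree ≤ c) (P : MvPolynomial σ R) {δ : ℕ} (hP : P.totalDegree ≤ δ) :
    (MvPolynomial.aeval f P).totalDegree ≤ c * δ := by
  classical
  rw [MvPolynomial.aeval_def, MvPolynomial.eval₂_eq]
  refine MvPolynomial.totalDegree_finsetSum_le fun m hm => ?_
  refine (MvPolynomial.totalDegree_mul _ _).trans ?_
  rw [MvPolynomial.algebraMap_eq, MvPolynomial.totalDegree_C, zero_add]
  refine (MvPolynomial.totalDegree_finsetProd _ _).trans ?_
  refine (Finset.sum_le_sum fun i _ => (MvPolynomial.totalDegree_pow _ _).trans (Nat.mul_le_mul_left _ (hf i))).trans ?_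
  rw [← Finset.sum_mul, mul_comm]
  refine Nat.mul_le_mul_left _ ?_
  exact (MvPolynomial.le_totalDegree hm).trans hP

/-- the polynomial with the constants substituted -/
noncomputable def sbC {Ω : Type} [Field Ω] [CharZero Ω] {K : IntermediateField ℚ Ω} {υ κ : Type} (w : υ → Ω)
    (P : MvPolynomial (υ ⊕ κ) K) : MvPolynomial κ Ω :=
  MvPolynomial.aeval (Sum.elim (fun j => MvPolynomial.C (w j)) MvPolynomial.X) P

theorem sbC_eval {Ω : Type} [Field Ω] [CharZero Ω] {K : IntermediateField ℚ Ω} {υ κ : Type} (w : υ → Ω) (y : κ → Ω)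
    (P : MvPolynomial (υ ⊕ κ) K) :
    MvPolynomial.eval y (sbC w P) = MvPolynomial.aeval (Sum.elim w y) P := by
  have h3 : ((MvPolynomial.aeval y : MvPolynomial κ Ω →ₐ[Ω] Ω).restrictScalars K).comp
      (MvPolynomial.aeval (Sum.elim (fun j => MvPolynomial.C (w j)) MvPolynomial.X) :
        MvPolynomial (υ ⊕ κ) K →ₐ[K] MvPolynomial κ Ω) = MvPolynomial.aeval (Sum.elim w y) := by
    refine MvPolynomial.algHom_ext fun i => ?_
    rw [AlgHom.comp_apply, MvPolynomial.aeval_X, MvPolynomial.aeval_X, AlgHom.restrictScalars_apply]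
    rcases i with j | j
    · rw [Sum.elim_inl, Sum.elim_inl, MvPolynomial.aeval_C]
      rfl
    · rw [Sum.elim_inr, Sum.elim_inr, MvPolynomial.aeval_X]
  rw [← h3, AlgHom.comp_apply, AlgHom.restrictScalars_apply]
  rfl

/-- windows for the period functions -/
theorem pS_window (Q : ℕ) : ∃ E : ℕ → ℕ, PB E ∧ ∀ (s : Bool) (δ : ℕ) (w : Fin Q → ℂ) (H n : ℕ), (H + 2) ^ E δ ≤ n →
    ∀ S : Finset ℕ, (∀ m ∈ S, n < m ∧ m ≤ n + H ∧ RelK δ w (pS s (m : ℝ))) → S.card ≤ Q + 2 := by
  classical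
  have h0 := fun s => absFree_exp (vJ s) (nrjE s (hbase s) hode (hlij s)) 1 (Q + 2)
  choose E₀ hE₀p hE₀ using h0
  choose C hC hsz using size_hS
  obtain ⟨c₀, hc₀⟩ := exists_nat_gt (max (C true) (C false))
  refine ⟨fun δ => E₀ true (3 * δ) + E₀ false (3 * δ) + (c₀ + 1), ?_, fun s δ w H n hn S hS => ?_⟩
  · exact (((hE₀p true).comp ((PB.const 3).mul PB.id)).add ((hE₀p false).comp ((PB.const 3).mul PB.id))).add
      (PB.const (c₀ + 1))
  have hn : (H + 2) ^ (E₀ true (3 * δ) + E₀ false (3 * δ) + (c₀ + 1)) ≤ n := hn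
  set t : ℕ := n + H + 1 with ht
  have hE : (H + 2) ^ E₀ s (3 * δ) ≤ t := by
    have h1 : (H + 2) ^ E₀ s (3 * δ) ≤ (H + 2) ^ (E₀ true (3 * δ) + E₀ false (3 * δ) + (c₀ + 1)) := by
      refine Nat.pow_le_pow_right (by omega) ?_
      cases s <;> omega
    omega
  have hc : H + c₀ < t := by
    have h1 : (H + 2) ^ (c₀ + 1) ≤ n := (Nat.pow_le_pow_right (by omega) (by omega)).trans hn
    have h3 : c₀ + 1 < 2 ^ (c₀ + 1) := Nat.lt_two_pow_self
    have h4 : 2 ^ (c₀ + 1) ≤ (H + 2) ^ (c₀ + 1) := Nat.pow_le_pow_left (by omega) _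
    omega
  have hCc : C s < c₀ := by
    cases s
    · exact lt_of_le_of_lt (le_max_right _ _) hc₀
    · exact lt_of_le_of_lt (le_max_left _ _) hc₀
  obtain ⟨S', hS', hwin⟩ := hE₀ s (3 * δ) H t hE (Fin 1 ⊕ Option (Fin Q)) (by
    rw [Fintype.card_sum, Fintype.card_option, Fintype.card_fin, Fintype.card_fin]
    omega) (Sum.elim (fun _ : Fin 1 => tpi) fun o : Option (Fin Q) => o.elim ((Real.log t : ℝ) : ℂ) w)
  refine le_trans ?_ hS'
  refine Finset.card_le_card_of_injOn (fun m => t - m) (fun m hm => ?_) (fun m hm m' hm' h => ?_)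
  · by_contra hmS
    obtain ⟨h1, h2, K, hK, hKd, P, hP, hP0, hne⟩ := hS m hm
    set g : ℕ := t - m with hg
    have hgm : t - g = m := by omega
    have hg1 : 1 ≤ g := by omega
    have hgH : g ≤ H := by omega
    set P₃ : MvPolynomial (Vr Q 1) K := MvPolynomial.aeval (Sum.elim (fun j : Fin Q =>
      MvPolynomial.X (Sum.inl (Sum.inr (some j)))) (fun i : Fin 3 => Zp K Q s 0 i)) P with hP₃
    have hP₃d : P₃.totalDegree ≤ 3 * δ := by
      refine aeval_degc 3 _ ?_ P hP
      rintro (j | i)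
      · rw [Sum.elim_inl, MvPolynomial.totalDegree_X]
        omega
      · exact Zp_deg s 0 i
    have hev : ∀ y : Fin 1 × Fin 3 → ℂ, MvPolynomial.aeval (pt ((Real.log t : ℝ) : ℂ) w y) P₃ =
        MvPolynomial.aeval (Sum.elim w (Zo (if s then 0 else 1 / 2) ((Real.log t : ℝ) : ℂ) fun i => y (0, i))) P := by
      intro y
      rw [hP₃, MvPolynomial.comp_aeval_apply]
      congr 1
      congr 1
      funext o
      rcases o with j | i
      · rw [Sum.elim_inl, Sum.elim_inl, MvPolynomial.aeval_X]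
        rfl
      · rw [Sum.elim_inr, Sum.elim_inr, ← Zp_eval (K := K) s 0 ((Real.log t : ℝ) : ℂ) w y]
    have hpS : pS s ((m : ℕ) : ℝ) = Zo (if s then 0 else 1 / 2) ((Real.log t : ℝ) : ℂ) (vJ s t g) := by
      rw [← hgm]
      refine pS_eq (hC s) (hsz s) ?_
      have h4 : (g : ℝ) + c₀ ≤ t := by exact_mod_cast (by omega)
      linarith
    have hall := hwin (fun _ : Fin 1 => g) (fun i j _ => Subsingleton.elim i j) (fun _ => ⟨hg1, hgH, hmS⟩) K hK
      (hKd.trans (by omega)) P₃ hP₃d (by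
        have h5 := hev fun a : Fin 1 × Fin 3 => vJ s t g a.2
        rw [hpS] at hP0
        exact h5.trans hP0)
    apply hne
    have h6 : sbC w P * MvPolynomial.X 0 = 0 := by
      refine MvPolynomial.funext fun u => ?_
      rw [map_mul, MvPolynomial.eval_X, map_zero, sbC_eval]
      by_cases hu : u 0 = 0
      · rw [hu, mul_zero]
      · obtain ⟨v, hv⟩ := exists_Zo (if s then 0 else 1 / 2) ((Real.log t : ℝ) : ℂ) hu
        have h7 := (hev fun a : Fin 1 × Fin 3 => v a.2).symm.trans (hall _)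
        have h8 : Zo (if s then 0 else 1 / 2) ((Real.log t : ℝ) : ℂ) (fun i : Fin 3 => v i) = u := hv
        rw [h8] at h7
        rw [h7, zero_mul]
    exact (mul_eq_zero.1 h6).resolve_right (MvPolynomial.X_ne_zero _)
  · have h1 := hS m hm
    have h2 := hS m' hm'
    have h3 : t - m = t - m' := h
    omega

/-- the transformation of a relation -/
theorem relK_pS' {k q : ℕ} : ∃ T₀ : ℕ, ∀ (δ : ℕ) (w : Fin q → ℂ) (s : Fin k → Bool) (m : Fin k → ℕ), (∀ i, T₀ ≤ m i) →
    ∀ z : Fin k → UpperHalfPlane, (∀ i, jj (z i) = ((si (s i) * (m i : ℤ) : ℤ) : ℂ)) →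
    RelK δ (wo w) (fun v : Fin k × Fin 3 => jt (z v.1) v.2) →
    RelK (Fintype.card (Option (Fin q)) * (δ * 8) + Fintype.card (Fin k × Fin 3) * (δ * 8)) (wo w)
      (fun v : Fin k × Fin 3 => pS (s v.1) (m v.1 : ℝ) v.2) := by
  classical
  choose T hT using all_PT
  obtain ⟨T₀, hT₀⟩ := exists_nat_ge (max (T true) (T false))
  refine ⟨T₀ + 1, fun δ w s m hm z hz hrel => ?_⟩
  obtain ⟨K, hK, hKd, P, hP, hP0, hne⟩ := hrel
  have hti0 : ∀ i, (si (s i) * (m i : ℤ)) ≠ 0 := by
    intro i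
    have h4 : ((m i : ℤ)) ≠ 0 := by
      have := hm i
      omega
    refine mul_ne_zero ?_ h4
    unfold si
    split_ifs <;> norm_num
  have hpt := fun i => hT (s i) (m i : ℝ) (z i) (by
    have h1 : T (s i) ≤ T₀ := by
      cases s i
      · exact (le_max_right _ _).trans hT₀
      · exact (le_max_left _ _).trans hT₀
    refine h1.trans ?_
    have := hm i
    exact_mod_cast (by omega)) (by rw [hz i]; push_cast; rfl)
  choose γ ω hγ hZ0 hω hd1 hd2 using hpt
  have hpts : ∀ i, (∀ j, e2 (pS (s i) (m i : ℝ)) (mm (γ i 1 0) (γ i 1 1) j) ≠ 0) ∧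
      ∀ j, jt (z i) j = e2 (pS (s i) (m i : ℝ)) (nn (γ i 0 0) (γ i 0 1) (γ i 1 0) (γ i 1 1)
        (si (s i) * (m i : ℤ)) j) / e2 (pS (s i) (m i : ℝ)) (mm (γ i 1 0) (γ i 1 1) j) := fun i =>
    ptsS (t := si (s i) * (m i : ℤ)) (hZ0 i) (hω i) (by rw [hd1 i]; push_cast; ring)
      (by rw [hd2 i]; push_cast; ring) (γ i) (hγ i)
  set W : Option (Fin q) → MvPolynomial (Option (Fin q) ⊕ Fin k × Fin 3) K := fun o => MvPolynomial.X (Sum.inl o) with hW
  set Zx : Fin k → Fin 3 → MvPolynomial (Option (Fin q) ⊕ Fin k × Fin 3) K := fun j i =>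
    MvPolynomial.X (Sum.inr (j, i)) with hZx
  set Np : Fin k × Fin 3 → MvPolynomial (Option (Fin q) ⊕ Fin k × Fin 3) K := fun v => MvPolynomial.aeval (Zx v.1)
    (MvPolynomial.map (Int.castRingHom K) (nn (γ v.1 0 0) (γ v.1 0 1) (γ v.1 1 0) (γ v.1 1 1)
      (si (s v.1) * (m v.1 : ℤ)) v.2)) with hNp
  set Mp : Fin k × Fin 3 → MvPolynomial (Option (Fin q) ⊕ Fin k × Fin 3) K := fun v => MvPolynomial.aeval (Zx v.1)
    (MvPolynomial.map (Int.castRingHom K) (mm (γ v.1 1 0) (γ v.1 1 1) v.2)) with hMp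
  have hZe : ∀ (y : Fin k × Fin 3 → ℂ) (j : Fin k), (fun i => MvPolynomial.aeval (Sum.elim (wo w) y) (Zx j i)) =
      fun i => y (j, i) := by
    intro y j
    funext i
    rw [hZx]
    show MvPolynomial.aeval _ (MvPolynomial.X _) = _
    rw [MvPolynomial.aeval_X, Sum.elim_inr]
  have hNe : ∀ (y : Fin k × Fin 3 → ℂ) v, MvPolynomial.aeval (Sum.elim (wo w) y) (Np v) =
      e2 (fun i => y (v.1, i)) (nn (γ v.1 0 0) (γ v.1 0 1) (γ v.1 1 0) (γ v.1 1 1) (si (s v.1) * (m v.1 : ℤ)) v.2) := by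
    intro y v
    rw [hNp]
    show MvPolynomial.aeval _ (MvPolynomial.aeval _ (MvPolynomial.map _ _)) = _
    rw [aeval_int, hZe]
    rfl
  have hMe : ∀ (y : Fin k × Fin 3 → ℂ) v, MvPolynomial.aeval (Sum.elim (wo w) y) (Mp v) =
      e2 (fun i => y (v.1, i)) (mm (γ v.1 1 0) (γ v.1 1 1) v.2) := by
    intro y v
    rw [hMp]
    show MvPolynomial.aeval _ (MvPolynomial.aeval _ (MvPolynomial.map _ _)) = _
    rw [aeval_int, hZe]
    rfl
  have hWe : ∀ y : Fin k × Fin 3 → ℂ, (fun a => MvPolynomial.aeval (Sum.elim (wo w) y) (W a)) = wo w := by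
    intro y
    funext a
    rw [hW]
    show MvPolynomial.aeval _ (MvPolynomial.X _) = _
    rw [MvPolynomial.aeval_X, Sum.elim_inl]
  have hdX : ∀ i : Option (Fin q) ⊕ Fin k × Fin 3,
      (MvPolynomial.X i : MvPolynomial (Option (Fin q) ⊕ Fin k × Fin 3) K).totalDegree ≤ 1 := fun i => by
    rw [MvPolynomial.totalDegree_X]
  have hδ : δ ≤ Fintype.card (Option (Fin q)) * (δ * 8) + Fintype.card (Fin k × Fin 3) * (δ * 8) := by
    have h1 : 1 ≤ Fintype.card (Option (Fin q)) := Fintype.card_pos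
    have h2 : δ * 8 ≤ Fintype.card (Option (Fin q)) * (δ * 8) := Nat.le_mul_of_pos_left _ h1
    omega
  refine ⟨K, hK, hKd.trans hδ, clr δ W Np Mp P, ?_, ?_, ?_⟩
  · refine clr_deg hP (fun a => (hdX _).trans (by norm_num)) (fun v => ?_) fun v => ?_
    · exact (aeval_int_deg (nn_deg _ _ _ _ _ _) fun i => hdX _).trans (by norm_num)
    · exact (aeval_int_deg (mm_deg _ _ _) fun i => hdX _).trans (by norm_num)
  · rw [clr_eval hP, hWe]
    · have e1 : (fun b : Fin k × Fin 3 => MvPolynomial.aeval (Sum.elim (wo w)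
          fun v : Fin k × Fin 3 => pS (s v.1) (m v.1 : ℝ) v.2) (Np b) / MvPolynomial.aeval (Sum.elim (wo w)
          fun v : Fin k × Fin 3 => pS (s v.1) (m v.1 : ℝ) v.2) (Mp b)) = fun v => jt (z v.1) v.2 := by
        funext v
        rw [hNe, hMe, (hpts v.1).2 v.2]
      rw [e1, hP0, mul_zero]
    · intro b
      rw [hMe]
      exact (hpts b.1).1 b.2
  · intro h0
    apply hne
    have hall : ∀ y : Fin k × Fin 3 → ℂ, MvPolynomial.aeval (Sum.elim (wo w) y) (clr δ W Np Mp P) = 0 := by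
      intro y
      rw [← sbC_eval]
      have : sbC (wo w) (clr δ W Np Mp P) = 0 := h0
      rw [this, map_zero]
    show sbC (wo w) P = 0
    refine dense_zero (a := fun j => γ j 0 0) (c := fun j => γ j 1 0) (fun j => ?_) fun u hu => ?_
    · by_contra hcon
      push Not at hcon
      have h1 := (γ j).det_coe
      rw [Matrix.det_fin_two, hcon.1, hcon.2] at h1
      simp at h1
    · rw [sbC_eval]
      have hpre : ∀ j, ∃ v : Fin 3 → ℂ,
          (∀ i, e2 v (mm (γ j 1 0) (γ j 1 1) i) ≠ 0) ∧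
          ∀ i, u (j, i) = e2 v (nn (γ j 0 0) (γ j 0 1) (γ j 1 0) (γ j 1 1) (si (s j) * (m j : ℤ)) i) /
            e2 v (mm (γ j 1 0) (γ j 1 1) i) := by
        intro j
        have hdet : (γ j 0 0) * (γ j 1 1) - (γ j 0 1) * (γ j 1 0) = 1 := by
          have h1 := (γ j).det_coe
          rw [Matrix.det_fin_two] at h1
          exact h1
        obtain ⟨Z, hZ, h3, h4⟩ := exists_Z (u := fun i => u (j, i)) hdet (hti0 j) (hu j).1 (hu j).2
        exact ⟨Z, h3, h4⟩
      choose v hv1 hv2 using hpre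
      have h5 := hall fun a => v a.1 a.2
      rw [clr_eval hP _ fun b => by rw [hMe]; exact hv1 b.1 b.2, hWe] at h5
      have e1 : (fun b : Fin k × Fin 3 => MvPolynomial.aeval (Sum.elim (wo w)
          fun a : Fin k × Fin 3 => v a.1 a.2) (Np b) / MvPolynomial.aeval (Sum.elim (wo w)
          fun a : Fin k × Fin 3 => v a.1 a.2) (Mp b)) = u := by
        funext b
        rw [hNe, hMe]
        exact (hv2 b.1 b.2).symm
      rw [e1] at h5
      refine (mul_eq_zero.1 h5).resolve_left ?_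
      refine Finset.prod_ne_zero_iff.2 fun b _ => pow_ne_zero _ ?_
      rw [hMe]
      exact hv1 b.1 b.2

open Classical in
/-- **Tuples of integral invariants** -/
theorem jtuples (k q : ℕ) : ∃ C : ℕ, ∀ (δ : ℕ) (w : Fin q → ℂ) (T : ℕ), 1 ≤ T →
    (((Fintype.piFinset fun _ : Fin k => Finset.Icc (-(T : ℤ)) T).filter fun n => (∀ i, n i ≠ 0) ∧
      ∃ z : Fin k → UpperHalfPlane, (∀ i, jj (z i) = (n i : ℂ)) ∧
        RelK δ (wo w) (fun v : Fin k × Fin 3 => jt (z v.1) v.2)).card : ℝ) ≤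
      C * (T : ℝ) ^ ((k : ℝ) - 1 / ((δ : ℝ) + 2) ^ C) := by
  obtain ⟨C₁, hC₁⟩ := gen_tuplesI Bool (fun s m => pS s (m : ℝ)) 0 k (q + 1) 2 (by
    intro Q
    obtain ⟨E, hEp, hE⟩ := pS_window Q
    exact ⟨E, hEp, fun s δ w H n hn S hS => hE s δ w H n hn S fun m hm => (hS m hm).2⟩)
  have hrel : ∃ T₀ : ℕ, ∀ (δ : ℕ) (w : Fin q → ℂ) (s : Fin k → Bool) (m : Fin k → ℕ), (∀ i, T₀ ≤ m i) →
    ∀ z : Fin k → UpperHalfPlane, (∀ i, jj (z i) = ((si (s i) * (m i : ℤ) : ℤ) : ℂ)) →
    RelK δ (wo w) (fun v : Fin k × Fin 3 => jt (z v.1) v.2) →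
    RelK (Fintype.card (Option (Fin q)) * (δ * 8) + Fintype.card (Fin k × Fin 3) * (δ * 8)) (wo w)
      (fun v : Fin k × Fin 3 => pS (s v.1) (m v.1 : ℝ) v.2) := relK_pS'
  obtain ⟨T₀, hT₀⟩ := hrel
  set a : ℕ := (q + 1) * 8 + (k * 3) * 8 with ha
  have hacard : ∀ δ : ℕ, Fintype.card (Option (Fin q)) * (δ * 8) + Fintype.card (Fin k × Fin 3) * (δ * 8) = a * δ := by
    intro δ
    rw [Fintype.card_option, Fintype.card_prod, Fintype.card_fin, Fintype.card_fin, Fintype.card_fin, ha]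
    ring
  obtain ⟨b, hb⟩ : PB fun δ => (a * δ + 2) ^ C₁ := (((PB.const a).mul PB.id).add (PB.const 2)).pow C₁
  refine ⟨2 ^ k * C₁ + k * (2 * T₀ + 1) * 3 ^ k + b, fun δ w T hT => ?_⟩
  set C := 2 ^ k * C₁ + k * (2 * T₀ + 1) * 3 ^ k + b with hC
  have hT1 : (1 : ℝ) ≤ T := by exact_mod_cast hT
  have hδ0 : (0 : ℝ) ≤ δ := Nat.cast_nonneg δ
  -- the large tuples
  set w' : Fin (q + 1) → ℂ := Fin.cons tpi w with hw'
  set A : Finset ℕ := (Finset.Icc 1 T).filter fun n => 0 ≤ n with hA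
  set L : (Fin k → Bool) → Finset (Fin k → ℕ) := fun s => (Fintype.piFinset fun _ : Fin k => A).filter fun t =>
    RelK (a * δ) w' (fun p : Fin k × Fin 3 => pS (s p.1) (t p.1 : ℝ) p.2) with hL
  set Sm : Finset (Fin k → ℤ) := (Fintype.piFinset fun _ : Fin k => Finset.Icc (-(T : ℤ)) T).filter fun n =>
    ∃ i, |n i| ≤ (T₀ : ℤ) with hSm
  have hsub : ((Fintype.piFinset fun _ : Fin k => Finset.Icc (-(T : ℤ)) T).filter fun n => (∀ i, n i ≠ 0) ∧
      ∃ z : Fin k → UpperHalfPlane, (∀ i, jj (z i) = (n i : ℂ)) ∧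
        RelK δ (wo w) (fun v : Fin k × Fin 3 => jt (z v.1) v.2)) ⊆
      Sm ∪ (Finset.univ.biUnion fun s : Fin k → Bool => (L s).image fun t i => si (s i) * (t i : ℤ)) := by
    intro n hn
    obtain ⟨hn1, hn0, z, hz, hrel⟩ := Finset.mem_filter.1 hn
    by_cases hs : ∃ i, |n i| ≤ (T₀ : ℤ)
    · exact Finset.mem_union_left _ (Finset.mem_filter.2 ⟨hn1, hs⟩)
    · push Not at hs
      rw [Fintype.mem_piFinset] at hn1
      refine Finset.mem_union_right _ (Finset.mem_biUnion.2 ⟨fun i => decide (0 < n i), Finset.mem_univ _,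
        Finset.mem_image.2 ⟨fun i => (n i).natAbs, ?_, ?_⟩⟩)
      · have hsgn : ∀ i, si (decide (0 < n i)) * ((n i).natAbs : ℤ) = n i := by
          intro i
          unfold si
          by_cases h0 : 0 < n i
          · simp only [h0, decide_true, if_true, one_mul]
            omega
          · simp only [h0, decide_false, Bool.false_eq_true, if_false]
            omega
        refine Finset.mem_filter.2 ⟨Fintype.mem_piFinset.2 fun i => Finset.mem_filter.2 ⟨Finset.mem_Icc.2 ⟨?_, ?_⟩,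
          Nat.zero_le _⟩, ?_⟩
        · have := hn0 i
          omega
        · have := Finset.mem_Icc.1 (hn1 i)
          omega
        · have h1 := hT₀ δ w (fun i => decide (0 < n i)) (fun i => (n i).natAbs) (fun i => by
            have h9 : (T₀ : ℤ) < |n i| := hs i
            rw [Int.abs_eq_natAbs] at h9
            have h10 : T₀ < (n i).natAbs := by exact_mod_cast h9
            exact h10.le) z (fun i => by
              rw [hz i, hsgn i]) hrel
          rw [hacard] at h1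
          have h2 := h1.embed w' (fun o : Option (Fin q) => o.elim 0 Fin.succ) (fun o => by
            rcases o with _ | o
            · rfl
            · rfl) (Equiv.refl _)
          exact h2
      · funext i
        show si (decide (0 < n i)) * ((n i).natAbs : ℤ) = n i
        unfold si
        by_cases h0 : 0 < n i
        · simp only [h0, decide_true, if_true, one_mul]
          omega
        · simp only [h0, decide_false, Bool.false_eq_true, if_false]
          omega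
  have hLc : ∀ s, ((L s).card : ℝ) ≤ C₁ * (T : ℝ) ^ ((k : ℝ) - 1 / ((δ : ℝ) + 2) ^ C) := by
    intro s
    refine (hC₁ s (a * δ) w' T hT).trans ?_
    refine mul_le_mul_of_nonneg_left (Real.rpow_le_rpow_of_exponent_le hT1 ?_) (Nat.cast_nonneg _)
    have h1 : (((a * δ : ℕ) : ℝ) + 2) ^ C₁ ≤ ((δ : ℝ) + 2) ^ C := by
      have h2 : (a * δ + 2) ^ C₁ ≤ (δ + 2) ^ C := (hb δ).trans (Nat.pow_le_pow_right (by omega) (by omega))
      exact_mod_cast h2
    have h3 := one_div_le_one_div_of_le (by positivity) h1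
    linarith
  have hpow : (T : ℝ) ^ ((k : ℝ) - 1) ≤ (T : ℝ) ^ ((k : ℝ) - 1 / ((δ : ℝ) + 2) ^ C) := by
    refine Real.rpow_le_rpow_of_exponent_le hT1 ?_
    have h1 : (1 : ℝ) ≤ ((δ : ℝ) + 2) ^ C := one_le_pow₀ (by linarith)
    have h2 : 1 / ((δ : ℝ) + 2) ^ C ≤ 1 := by
      rw [div_le_one (by linarith)]
      exact h1
    linarith
  have hSmc : (Sm.card : ℝ) ≤ (k * (2 * T₀ + 1) * 3 ^ k : ℕ) * (T : ℝ) ^ ((k : ℝ) - 1) := by
    rcases Nat.eq_zero_or_pos k with hk | hk
    · have : Sm = ∅ := by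
        rw [hSm]
        refine Finset.filter_false_of_mem fun n _ => ?_
        rintro ⟨i, -⟩
        subst hk
        exact i.elim0
      rw [this]
      simp only [Finset.card_empty, Nat.cast_zero]
      positivity
    · have h1 : Sm ⊆ Finset.univ.biUnion fun i : Fin k => Fintype.piFinset fun j : Fin k =>
          if j = i then Finset.Icc (-(T₀ : ℤ)) T₀ else Finset.Icc (-(T : ℤ)) T := by
        intro n hn
        obtain ⟨hn1, i, hi⟩ := Finset.mem_filter.1 hn
        rw [Fintype.mem_piFinset] at hn1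
        refine Finset.mem_biUnion.2 ⟨i, Finset.mem_univ _, Fintype.mem_piFinset.2 fun j => ?_⟩
        by_cases hj : j = i
        · rw [if_pos hj, hj]
          exact Finset.mem_Icc.2 (abs_le.1 hi)
        · rw [if_neg hj]
          exact hn1 j
      have h2 : ∀ i : Fin k, (Fintype.piFinset fun j : Fin k =>
          if j = i then Finset.Icc (-(T₀ : ℤ)) T₀ else Finset.Icc (-(T : ℤ)) T).card ≤
            (2 * T₀ + 1) * (3 * T) ^ (k - 1) := by
        intro i
        rw [Fintype.card_piFinset, ← Finset.mul_prod_erase _ _ (Finset.mem_univ i), if_pos rfl]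
        have h3 : (Finset.Icc (-(T₀ : ℤ)) T₀).card = 2 * T₀ + 1 := by
          rw [Int.card_Icc]
          omega
        have h4 : (Finset.Icc (-(T : ℤ)) T).card ≤ 3 * T := by
          rw [Int.card_Icc]
          omega
        rw [h3]
        refine Nat.mul_le_mul_left _ ?_
        calc ∏ x ∈ Finset.univ.erase i, (if x = i then Finset.Icc (-(T₀ : ℤ)) T₀ else Finset.Icc (-(T : ℤ)) T).card
            ≤ ∏ _x ∈ Finset.univ.erase i, (3 * T) := by
              refine Finset.prod_le_prod' fun x hx => ?_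
              rw [if_neg (Finset.ne_of_mem_erase hx)]
              exact h4
          _ = (3 * T) ^ (k - 1) := by
              rw [Finset.prod_const, Finset.card_erase_of_mem (Finset.mem_univ i), Finset.card_univ, Fintype.card_fin]
      have h3 : Sm.card ≤ k * ((2 * T₀ + 1) * (3 * T) ^ (k - 1)) := by
        refine (Finset.card_le_card h1).trans (Finset.card_biUnion_le.trans ?_)
        refine (Finset.sum_le_card_nsmul _ _ _ fun i _ => h2 i).trans ?_
        rw [Finset.card_univ, Fintype.card_fin, smul_eq_mul]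
      have h4 : (Sm.card : ℝ) ≤ k * ((2 * T₀ + 1) * (3 * (T : ℝ)) ^ (k - 1)) := by exact_mod_cast h3
      refine h4.trans ?_
      have h5 : (T : ℝ) ^ ((k : ℝ) - 1) = (T : ℝ) ^ (k - 1) := by
        rw [← Real.rpow_natCast]
        congr 1
        rw [Nat.cast_sub hk]
        simp
      rw [h5, mul_pow]
      push_cast
      have h6 : (3 : ℝ) ^ (k - 1) ≤ 3 ^ k := pow_le_pow_right₀ (by norm_num) (by omega)
      calc (k : ℝ) * ((2 * T₀ + 1) * (3 ^ (k - 1) * (T : ℝ) ^ (k - 1)))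
          ≤ (k : ℝ) * ((2 * T₀ + 1) * (3 ^ k * (T : ℝ) ^ (k - 1))) := by gcongr
        _ = _ := by ring
  have h1 : (((Fintype.piFinset fun _ : Fin k => Finset.Icc (-(T : ℤ)) T).filter fun n => (∀ i, n i ≠ 0) ∧
      ∃ z : Fin k → UpperHalfPlane, (∀ i, jj (z i) = (n i : ℂ)) ∧
        RelK δ (wo w) (fun v : Fin k × Fin 3 => jt (z v.1) v.2)).card : ℝ) ≤
      Sm.card + ∑ s : Fin k → Bool, ((L s).card : ℝ) := by
    have h2 := (Finset.card_le_card hsub).trans (Finset.card_union_le _ _)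
    have h3 : (Finset.univ.biUnion fun s : Fin k → Bool => (L s).image fun t i => si (s i) * (t i : ℤ)).card ≤
        ∑ s : Fin k → Bool, (L s).card :=
      Finset.card_biUnion_le.trans (Finset.sum_le_sum fun s _ => Finset.card_image_le)
    have h4 := h2.trans (Nat.add_le_add_left h3 _)
    exact_mod_cast h4
  refine h1.trans ?_
  have h5 : ∑ s : Fin k → Bool, ((L s).card : ℝ) ≤ 2 ^ k * (C₁ * (T : ℝ) ^ ((k : ℝ) - 1 / ((δ : ℝ) + 2) ^ C)) := by
    refine (Finset.sum_le_card_nsmul _ _ _ fun s _ => hLc s).trans ?_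
    rw [Finset.card_univ, Fintype.card_fun, Fintype.card_bool, Fintype.card_fin, nsmul_eq_mul]
    push_cast
    exact le_rfl
  have h6 : (0 : ℝ) ≤ (T : ℝ) ^ ((k : ℝ) - 1 / ((δ : ℝ) + 2) ^ C) := by positivity
  have h7 : (C : ℝ) = 2 ^ k * C₁ + ((k * (2 * T₀ + 1) * 3 ^ k : ℕ) : ℝ) + b := by
    rw [hC]
    push_cast
    ring
  have h8 : (Sm.card : ℝ) ≤ ((k * (2 * T₀ + 1) * 3 ^ k : ℕ) : ℝ) * (T : ℝ) ^ ((k : ℝ) - 1 / ((δ : ℝ) + 2) ^ C) :=
    hSmc.trans (mul_le_mul_of_nonneg_left hpow (Nat.cast_nonneg _))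
  rw [h7]
  have h9 : (0 : ℝ) ≤ b * (T : ℝ) ^ ((k : ℝ) - 1 / ((δ : ℝ) + 2) ^ C) := by positivity
  nlinarith [h5, h8, h9]

end Pool.Agent.R351.GD
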